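import Pool.Agent.Helper43.EV.Goals

/-!
# Project EV, packet STA: step A
-/

set_option autoImplicit false

namespace Pool.Agent.Helper17.EV.STA

open Module Pool.Agent.Helper43.EV
open Pool.Agent.Helper3.QGr (prj prj_z instFiniteSub)

theorem t (hF : FIB) (hC : CLS) (hL : LIN) (hO : ORA) (hP : PIA) : Pool.Agent.Helper43.EV.STA := by
  intro F _ _ p hp _ V _ _ _ ψ z hz a b h hfor S hS hFz
  have fin1 : Finite (Fl F V a b) := by
    have : Finite (Submodule F V) := instFiniteSub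
    exact Subtype.finite
  have fin2 : Finite (Fl F (LinearMap.ker ψ) a b) := by
    have : Finite (Submodule F (LinearMap.ker ψ)) := instFiniteSub
    exact Subtype.finite
  obtain ⟨NA, NB, s, hNA, hNB, hs, hA, hB, hpA, hpB, hnA, hnB⟩ := hL F p V ψ z hz
  obtain ⟨π, hπ1, hπ2⟩ := hP F V ψ z hz s hs a b
  have hcls := (hC p 2 hp.out Nat.prime_two).2.2.2.2.2
  refine hF (PG p) (TG F V) (Fl F V a b) (TG F (LinearMap.ker ψ)) (Fl F (LinearMap.ker ψ) a b)
    NA s {X : Fl F V a b | z ∉ X.1.2} π (Nat.card F ^ b) h ?_ ?_ hπ2 ?_ hfor S ?_ ?_ hFz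
  · intro H hH
    exact hcls (TG F V) (TG F (LinearMap.ker ψ)) NA s H hnA hpA hH
  · intro g hg v
    exact hπ1 g ((hNA g).1 hg) v
  · intro X hX
    exact hO F V ψ z hz NA hNA hA a b X hX
  · intro g hg X hX
    refine hS g ?_ X hX
    obtain ⟨φ, hφ⟩ := (hNA g).1 hg
    rw [hφ z, prj_z, map_zero, zero_smul, add_zero]
  · intro g X hX
    refine hS (s g) ?_ X hX
    rw [hs g z, prj_z, map_zero, hz, one_smul]
    simp

end Pool.Agent.Helper17.EV.STA
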